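import Pool.Agent.helper73.NH.Spec

/-!
# Project nh, row NCL: unipotent subgroups of triangularisable nilpotent groups
-/

set_option autoImplicit false

namespace Pool.Agent.NH

open Matrix Module Pool.Agent.PR Pool.Agent.SHL

section

variable {K V : Type} [Field K] [AddCommGroup V] [Module K V]

theorem NCL_pow (f : Module.End K V) (F : V →ₗ[K] K) (c a : K) (h : ∀ x, F (f x) = c * F x)
    (k : ℕ) (x : V) : F (((f - a • (1 : Module.End K V)) ^ k) x) = (c - a) ^ k * F x := by
  induction k generalizing x with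
  | zero => simp
  | succ k ih =>
    rw [pow_succ, Module.End.mul_apply, ih, LinearMap.sub_apply, map_sub, h, LinearMap.smul_apply,
      Module.End.one_apply, map_smul, smul_eq_mul, pow_succ]
    ring

theorem NCL_one (f : Module.End K V) (F : V →ₗ[K] K) (hF : F ≠ 0) (c a : K)
    (h : ∀ x, F (f x) = c * F x) (k : ℕ) (H : ∀ x, F (((f - a • (1 : Module.End K V)) ^ k) x) = 0) :
    c = a := by
  obtain ⟨x, hx⟩ : ∃ x, F x ≠ 0 := by
    by_contra hc
    push Not at hc
    exact hF (LinearMap.ext hc)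
  have h1 := H x
  rw [NCL_pow f F c a h] at h1
  rcases mul_eq_zero.mp h1 with h2 | h2
  · exact sub_eq_zero.mp (by by_contra h3; exact pow_ne_zero k h3 h2)
  · exact absurd h2 hx

end

section

variable {K V : Type} [Field K] [IsAlgClosed K] [AddCommGroup V] [Module K V]
  [FiniteDimensional K V] {Q : Type} [Group Q]

theorem NCL_key (hFIT : N_FIT_stmt) (hQ : Group.IsNilpotent Q) (ρ : Q →* Module.End K V)
    (hT : TriS ρ) (g : Q) (l : K) (hl : (ρ g).maxGenEigenspace l ≠ ⊥) :
    ∃ F : V →ₗ[K] K, F ≠ 0 ∧ (∀ x, F (ρ g x) = l * F x) ∧ ∀ h : Q, ∃ c : K, ∀ x,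
      F (ρ h x) = c * F x := by
  have hE : InvS ρ ((ρ g).maxGenEigenspace l) := hFIT K V Q hQ ρ hT g l
  obtain ⟨W, ⟨hW1, hW2⟩, hmax⟩ := WellFounded.has_min
    (wellFounded_gt : WellFounded fun a b : Submodule K V => a > b)
    {W : Submodule K V | InvS ρ W ∧ W < (ρ g).maxGenEigenspace l}
    ⟨⊥, fun h w hw => by
      rw [(Submodule.mem_bot K).mp hw, map_zero]
      exact Submodule.zero_mem _, bot_lt_iff_ne_bot.mpr hl⟩
  obtain ⟨v, hvE, hvW, hv⟩ := hT W _ hW1 hE hW2
  -- `W ⊔ K v` is everything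
  have hWv : W ⊔ Submodule.span K {v} = (ρ g).maxGenEigenspace l := by
    have hle : W ⊔ Submodule.span K {v} ≤ (ρ g).maxGenEigenspace l :=
      sup_le hW2.le ((Submodule.span_singleton_le_iff_mem _ _).mpr hvE)
    by_contra hne
    refine hmax (W ⊔ Submodule.span K {v}) ⟨?_, lt_of_le_of_ne hle hne⟩ ?_
    · intro h w hw
      obtain ⟨w0, hw0, y, hy, rfl⟩ := Submodule.mem_sup.mp hw
      obtain ⟨a, rfl⟩ := Submodule.mem_span_singleton.mp hy
      obtain ⟨c, hc⟩ := hv h
      have h1 : ρ h (w0 + a • v) = (ρ h w0 + a • (ρ h v - c • v)) + (a * c) • v := by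
        rw [map_add, map_smul, smul_sub, smul_smul]
        abel
      rw [h1]
      exact Submodule.add_mem_sup (W.add_mem (hW1 h w0 hw0) (W.smul_mem a hc))
        (Submodule.smul_mem _ _ (Submodule.mem_span_singleton_self v))
    · refine lt_of_le_of_ne le_sup_left ?_
      intro h1
      apply hvW
      rw [h1]
      exact (le_sup_right : Submodule.span K {v} ≤ _) (Submodule.mem_span_singleton_self v)
  -- the other eigenspaces
  obtain ⟨R, hR⟩ : ∃ R : Submodule K V, R = ⨆ (μ : K) (_ : μ ≠ l), (ρ g).maxGenEigenspace μ :=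
    ⟨_, rfl⟩
  have hRi : InvS ρ R := by
    intro h
    have h1 : R ≤ R.comap (ρ h) := by
      rw [hR]
      refine iSup₂_le fun μ hμ x hx => ?_
      exact Submodule.mem_iSup_of_mem μ (Submodule.mem_iSup_of_mem hμ
        (hFIT K V Q hQ ρ hT g μ h x hx))
    exact fun w hw => h1 hw
  have hdis : Disjoint ((ρ g).maxGenEigenspace l) R := by
    rw [hR]
    exact Module.End.independent_maxGenEigenspace (ρ g) l
  have htop : (W ⊔ R) ⊔ Submodule.span K {v} = ⊤ := by
    rw [eq_top_iff, ← Module.End.iSup_maxGenEigenspace_eq_top (ρ g)]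
    refine iSup_le fun μ => ?_
    by_cases hμ : μ = l
    · subst hμ
      rw [← hWv]
      exact sup_le (le_sup_left.trans le_sup_left) le_sup_right
    · have h1 : (ρ g).maxGenEigenspace μ ≤ R := by
        rw [hR]
        exact le_iSup₂_of_le μ hμ le_rfl
      exact h1.trans (le_sup_right.trans le_sup_left)
  have hZi : InvS ρ (W ⊔ R) := by
    intro h w hw
    obtain ⟨w0, hw0, y, hy, rfl⟩ := Submodule.mem_sup.mp hw
    rw [map_add]
    exact Submodule.add_mem_sup (hW1 h w0 hw0) (hRi h y hy)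
  have hvZ : v ∉ W ⊔ R := by
    intro hv'
    obtain ⟨w0, hw0, y, hy, h1⟩ := Submodule.mem_sup.mp hv'
    have h2 : y = v - w0 := by rw [← h1]; abel
    have h3 : y ∈ (ρ g).maxGenEigenspace l := by
      rw [h2]
      exact Submodule.sub_mem _ hvE (hW2.le hw0)
    have h4 : y = 0 := (Submodule.disjoint_def.mp hdis) y h3 hy
    apply hvW
    rw [← h1, h4, add_zero]
    exact hw0
  obtain ⟨F, hFv, hFZ⟩ := Submodule.exists_dual_map_eq_bot_of_notMem hvZ inferInstance
  have hFz : ∀ z ∈ W ⊔ R, F z = 0 := by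
    intro z hz
    have h1 : F z ∈ (W ⊔ R).map F := Submodule.mem_map_of_mem hz
    rw [hFZ] at h1
    exact (Submodule.mem_bot K).mp h1
  have hFc : ∀ (h : Q) (c : K), ρ h v - c • v ∈ W → ∀ x, F (ρ h x) = c * F x := by
    intro h c hc x
    have hx : x ∈ (W ⊔ R) ⊔ Submodule.span K {v} := by
      rw [htop]
      exact Submodule.mem_top
    obtain ⟨z, hz, y, hy, rfl⟩ := Submodule.mem_sup.mp hx
    obtain ⟨a, rfl⟩ := Submodule.mem_span_singleton.mp hy
    have h1 : F (ρ h v) = c * F v := by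
      have h2 := hFz _ ((le_sup_left : W ≤ W ⊔ R) hc)
      rw [map_sub, map_smul, smul_eq_mul] at h2
      exact sub_eq_zero.mp h2
    rw [map_add, map_smul, map_add, map_smul, h1, hFz _ (hZi h z hz), map_add, map_smul,
      hFz z hz, smul_eq_mul, smul_eq_mul]
    ring
  have hF0 : F ≠ 0 := by
    rintro rfl
    exact hFv rfl
  refine ⟨F, hF0, ?_, fun h => ?_⟩
  · obtain ⟨c, hc⟩ := hv g
    have h1 := hFc g c hc
    obtain ⟨k, hk⟩ := (Module.End.mem_maxGenEigenspace (ρ g) l v).mp hvE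
    have h2 := NCL_pow (ρ g) F c l h1 k v
    rw [hk, map_zero] at h2
    have h3 : c = l := by
      rcases mul_eq_zero.mp h2.symm with h4 | h4
      · by_contra h5
        exact pow_ne_zero k (sub_ne_zero.mpr h5) h4
      · exact absurd h4 hFv
    rw [← h3]
    exact h1
  · obtain ⟨c, hc⟩ := hv h
    exact ⟨c, hFc h c hc⟩

theorem NCL_van (ρ : Q →* Module.End K V) (U : Subgroup Q) (hU : ∀ u ∈ U, IsNilpotent (ρ u - 1))
    (F : V →ₗ[K] K) (hF : F ≠ 0) (hc : ∀ h : Q, ∃ c : K, ∀ x, F (ρ h x) = c * F x) :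
    ∀ w ∈ Submodule.span K {w | ∃ u ∈ U, ∃ v, w = ρ u v - v}, F w = 0 := by
  intro w hw
  have h1 : Submodule.span K {w | ∃ u ∈ U, ∃ v, w = ρ u v - v} ≤ LinearMap.ker F := by
    rw [Submodule.span_le]
    rintro _ ⟨u, hu, v, rfl⟩
    obtain ⟨c, hc⟩ := hc u
    obtain ⟨k, hk⟩ := hU u hu
    have h2 : c = 1 := by
      refine NCL_one (ρ u) F hF c 1 hc k fun x => ?_
      rw [one_smul, hk, LinearMap.zero_apply, map_zero]
    show F (ρ u v - v) = 0
    rw [map_sub, hc, h2, one_mul, sub_self]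
  exact h1 hw

end

theorem NCL (hFIT : N_FIT_stmt) (hRES : N_RES_stmt) : NCL_stmt := by
  intro K V _ _ _ _ _ _ Q _ hQ ρ hT U hU
  refine ⟨?_, ?_⟩
  · intro htop
    have h1 : (ρ 1).maxGenEigenspace (1 : K) ≠ ⊥ := by
      obtain ⟨v, hv⟩ := exists_ne (0 : V)
      intro h2
      apply hv
      have h3 : v ∈ (ρ 1).maxGenEigenspace (1 : K) := by
        rw [Module.End.mem_maxGenEigenspace]
        refine ⟨1, ?_⟩
        rw [map_one, one_smul, sub_self, pow_one, LinearMap.zero_apply]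
      rw [h2] at h3
      exact (Submodule.mem_bot K).mp h3
    obtain ⟨F, hF, -, hc⟩ := NCL_key hFIT hQ ρ hT 1 1 h1
    have h2 := NCL_van ρ U hU F hF hc
    apply hF
    ext x
    rw [LinearMap.zero_apply]
    refine h2 x ?_
    rw [htop]
    exact Submodule.mem_top
  · intro g k hk
    have h1 : ∀ μ : K, μ ≠ 1 → (ρ g).maxGenEigenspace μ = ⊥ := by
      intro μ hμ
      by_contra hne
      obtain ⟨F, hF, hg, hc⟩ := NCL_key hFIT hQ ρ hT g μ hne
      have h2 := NCL_van ρ U hU F hF hc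
      apply hμ
      refine NCL_one (ρ g) F hF μ 1 hg k fun x => ?_
      rw [one_smul]
      exact h2 _ (hk x)
    have h2 : (ρ g).maxGenEigenspace (1 : K) = ⊤ := by
      rw [eq_top_iff, ← Module.End.iSup_maxGenEigenspace_eq_top (ρ g)]
      refine iSup_le fun μ => ?_
      by_cases hμ : μ = 1
      · rw [hμ]
      · rw [h1 μ hμ]
        exact bot_le
    rw [Module.End.maxGenEigenspace_eq_genEigenspace_finrank] at h2
    refine ⟨finrank K V, ?_⟩
    ext x
    have h3 : x ∈ (ρ g).genEigenspace (1 : K) (finrank K V) := by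
      rw [h2]
      exact Submodule.mem_top
    rw [Module.End.mem_genEigenspace_nat, LinearMap.mem_ker, one_smul] at h3
    rw [h3, LinearMap.zero_apply]

end Pool.Agent.NH
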